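import Mathlib

set_option autoImplicit false

/-!
Space versus depth: abstract form.

`M 0, M 1, ..., M τ` are configurations (finite sets of labels).  A prover asks for truth values of
labels (asking `D` costs `c D`); he wins as soon as he knows a step `t → t+1`, `t < τ`, such that all
labels of `M t` are true and some label of `M (t+1)` is false.
-/

namespace Pool.Agent.H705.SD

open Finset

variable {L : Type*} [DecidableEq L]

/-- `Win M τ c k T F`: knowing that the labels in `T` are true and those in `F` are false, the prover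
finds a violated step at additional cost at most `k`. -/
inductive Win (M : ℕ → Finset L) (τ : ℕ) (c : L → ℕ) : ℕ → Finset L → Finset L → Prop
  | leaf {k : ℕ} {T F : Finset L} (t : ℕ) (ht : t < τ) (h1 : M t ⊆ T) (D : L) (h2 : D ∈ M (t + 1))
      (h3 : D ∈ F) : Win M τ c k T F
  | query {k : ℕ} {T F : Finset L} (D : L) (h1 : Win M τ c k (insert D T) F)
      (h2 : Win M τ c k T (insert D F)) : Win M τ c (k + c D) T F

variable {M : ℕ → Finset L} {τ : ℕ} {c : L → ℕ}

lemma Win.mono {k : ℕ} {T F : Finset L} (h : Win M τ c k T F) :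
    ∀ {k' : ℕ}, k ≤ k' → Win M τ c k' T F := by
  induction h with
  | leaf t ht h1 D h2 h3 => intro k' _; exact Win.leaf t ht h1 D h2 h3
  | @query k T F D h1 h2 ih1 ih2 =>
    intro k' hk
    obtain ⟨j, rfl⟩ : ∃ j, k' = j + c D := ⟨k' - c D, by omega⟩
    exact Win.query D (ih1 (by omega)) (ih2 (by omega))

lemma Win.more {k : ℕ} {T F : Finset L} (h : Win M τ c k T F) :
    ∀ {T' F' : Finset L}, T ⊆ T' → F ⊆ F' → Win M τ c k T' F' := by
  induction h with
  | leaf t ht h1 D h2 h3 =>
    intro T' F' hT hF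
    exact Win.leaf t ht (h1.trans hT) D h2 (hF h3)
  | @query k T F D h1 h2 ih1 ih2 =>
    intro T' F' hT hF
    exact Win.query D (ih1 (insert_subset_insert _ hT) hF) (ih2 hT (insert_subset_insert _ hF))

/-- evaluate all labels of `S` that are not yet known to be true -/
lemma Win.eval {k : ℕ} {T F : Finset L} (S : Finset L)
    (hdead : ∀ D ∈ S, D ∉ T → Win M τ c k T (insert D F))
    (halive : Win M τ c k (T ∪ S) F) : Win M τ c (k + ∑ D ∈ S, c D) T F := by
  classical
  induction S using Finset.induction_on generalizing T with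
  | empty => simpa using halive
  | @insert D S hD ih =>
    rw [Finset.sum_insert hD]
    by_cases hDT : D ∈ T
    · have h1 : Win M τ c (k + ∑ D ∈ S, c D) T F := by
        apply ih
        · intro D' hD' hT; exact hdead D' (mem_insert_of_mem hD') hT
        · have : T ∪ insert D S = T ∪ S := by
            ext x; simp only [mem_union, mem_insert]; constructor
            · rintro (h | rfl | h)
              · exact Or.inl h
              · exact Or.inl hDT
              · exact Or.inr h
            · rintro (h | h)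
              · exact Or.inl h
              · exact Or.inr (Or.inr h)
          rwa [this] at halive
      exact h1.mono (by omega)
    · have h1 : Win M τ c (k + ∑ D ∈ S, c D) (insert D T) F := by
        apply ih
        · intro D' hD' hT
          rw [mem_insert, not_or] at hT
          exact (hdead D' (mem_insert_of_mem hD') hT.2).more (subset_insert _ _) (Subset.refl _)
        · have : insert D T ∪ S = T ∪ insert D S := by
            ext x; simp only [mem_union, mem_insert]; tauto
          rwa [this]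
      have h2 : Win M τ c (k + ∑ D ∈ S, c D) T (insert D F) :=
        (hdead D (mem_insert_self _ _) hDT).mono (by omega)
      have := Win.query D h1 h2
      exact this.mono (by omega)

/-- labels occurring between two times -/
def Lab (M : ℕ → Finset L) (a b : ℕ) : Finset L := (Icc a b).biUnion M

lemma mem_Lab {a b : ℕ} {D : L} : D ∈ Lab M a b ↔ ∃ t, a ≤ t ∧ t ≤ b ∧ D ∈ M t := by
  unfold Lab
  simp only [mem_biUnion, mem_Icc, and_assoc]

/-- the rank of an interval of times is at least `d` -/
def Rk (M : ℕ → Finset L) (k : ℕ) : ℕ → ℕ → ℕ → Prop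
  | 0, a, b => a ≤ b
  | d + 1, a, b => ∃ a1 b1 a2 b2, a ≤ a1 ∧ b1 < a2 ∧ b2 ≤ b ∧ Rk M k d a1 b1 ∧ Rk M k d a2 b2 ∧
      ∀ q, a2 ≤ q → q ≤ b2 → k < (M q \ Lab M a1 b1).card

lemma Rk_mono {k d a b a' b' : ℕ} (h : Rk M k d a b) (ha : a' ≤ a) (hb : b ≤ b') :
    Rk M k d a' b' := by
  cases d with
  | zero => exact (ha.trans (show a ≤ b from h)).trans hb
  | succ d =>
    obtain ⟨a1, b1, a2, b2, h1, h2, h3, h4⟩ := h
    exact ⟨a1, b1, a2, b2, ha.trans h1, h2, h3.trans hb, h4⟩

lemma Rk_le {k : ℕ} : ∀ {d a b : ℕ}, Rk M k d a b → a ≤ b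
  | 0, _, _, h => h
  | d + 1, a, b, h => by
    obtain ⟨a1, b1, a2, b2, h1, h2, h3, h4, h5, _⟩ := h
    have := Rk_le h4
    have := Rk_le h5
    omega

lemma exists_fresh {k d p q r a b : ℕ} (hq : ¬ Rk M k (d + 1) p q) (h1 : Rk M k d p r)
    (h2 : Rk M k d a b) (hra : r < a) (hb : b ≤ q) :
    ∃ z, a ≤ z ∧ z ≤ b ∧ (M z \ Lab M p r).card ≤ k := by
  by_contra hcon
  push Not at hcon
  exact hq ⟨p, r, a, b, le_rfl, hra, hb, h1, h2, hcon⟩

section stage

variable (M τ c)

/-- evaluate a whole configuration -/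
lemma eval_config {s k t : ℕ} {T F : Finset L} (hs : ∑ D ∈ M t, c D ≤ s) (hTF : Disjoint T F)
    (hdead : ∀ F', F ⊆ F' → Disjoint T F' → (∃ D ∈ M t, D ∈ F') → Win M τ c k T F')
    (halive : ∀ T', T ⊆ T' → Disjoint T' F → M t ⊆ T' → Win M τ c k T' F) :
    Win M τ c (k + s) T F := by
  classical
  by_cases h : ∃ D ∈ M t, D ∈ F
  · exact (hdead F (Subset.refl _) hTF h).mono (by omega)
  · push Not at h
    have := Win.eval (M := M) (τ := τ) (c := c) (k := k) (T := T) (F := F) (M t)
      (by
        intro D hD hDT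
        refine hdead _ (subset_insert _ _) ?_ ⟨D, hD, mem_insert_self _ _⟩
        rw [disjoint_insert_right]; exact ⟨hDT, hTF⟩)
      (by
        refine halive _ subset_union_left ?_ subset_union_right
        rw [disjoint_union_left]
        exact ⟨hTF, disjoint_left.2 (fun D hD => h D hD)⟩)
    exact this.mono (by omega)

/-- the main statement for rank `< d` and length at most `2 ^ (g * e)` -/
def Main (s k g W d e : ℕ) : Prop :=
  ∀ (p q : ℕ) (T F : Finset L), Disjoint T F → p < q → q ≤ τ → M p ⊆ T → (∃ D ∈ M q, D ∈ F) →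
    ¬ Rk M k d p q → q - p ≤ 2 ^ (g * e) → Win M τ c ((d + e) * (3 * s + 2 * (k * W) * g)) T F

end stage

section step

variable {s k W d p q r K N : ℕ}

/-- the data of one stage -/
structure Stage (M : ℕ → Finset L) (τ : ℕ) (c : L → ℕ) (s k W d p q r K N : ℕ) : Prop where
  hs : ∀ t, t ≤ q → ∑ D ∈ M t, c D ≤ s
  hW : ∀ t, t ≤ q → ∀ D ∈ M t, c D ≤ W
  hqτ : q ≤ τ
  hpr : p ≤ r
  hrq : r ≤ q
  hr : ∀ x, x < r → ¬ Rk M k d p x
  hfresh : ∀ a b, Rk M k d a b → r < a → b ≤ q → ∃ z, a ≤ z ∧ z ≤ b ∧ (M z \ Lab M p r).card ≤ k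
  hA : ∀ a b (T F : Finset L), Disjoint T F → p ≤ a → a < b → b ≤ q → M a ⊆ T →
    (∃ D ∈ M b, D ∈ F) → ¬ Rk M k d a b → Win M τ c K T F
  hB : ∀ a b (T F : Finset L), Disjoint T F → p ≤ a → a < b → b ≤ q → M a ⊆ T →
    (∃ D ∈ M b, D ∈ F) → b - a ≤ N → Win M τ c K T F

lemma Stage.collapse (S : Stage M τ c s k W d p q r K N) {T F : Finset L} (hTF : Disjoint T F)
    (hp : M p ⊆ T) {D : L} (hD : D ∈ Lab M p r) (hDF : D ∈ F) : Win M τ c (K + s) T F := by
  have hqτ := S.hqτ
  have hrq := S.hrq
  rw [mem_Lab] at hD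
  obtain ⟨t, h1, h2, h3⟩ := hD
  rcases Nat.lt_or_ge p t with hpt | hpt
  · rcases Nat.lt_or_ge t r with htr | htr
    · exact (S.hA p t T F hTF le_rfl hpt (by omega) hp ⟨D, h3, hDF⟩ (S.hr t htr)).mono (by omega)
    · obtain rfl : t = r := by omega
      obtain ⟨u, rfl⟩ : ∃ u, t = u + 1 := ⟨t - 1, by omega⟩
      rcases Nat.lt_or_ge p u with hpu | hpu
      · refine eval_config M τ c (t := u) (S.hs u (by omega)) hTF ?_ ?_
        · intro F' hF hd h
          exact S.hA p u T F' hd le_rfl hpu (by omega) hp h (S.hr u (by omega))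
        · intro T' hT hd h
          exact Win.leaf u (by omega) h D h3 hDF
      · obtain rfl : p = u := by omega
        exact Win.leaf p (by omega) hp D h3 hDF
  · obtain rfl : p = t := by omega
    exact absurd hDF (disjoint_left.1 hTF (hp h3))

lemma Stage.verify (S : Stage M τ c s k W d p q r K N) {T F : Finset L} (hTF : Disjoint T F)
    (hp : M p ⊆ T) {x K1 : ℕ} (hx : x ≤ q) (hsemi : ∀ D ∈ M x, D ∈ T ∨ D ∈ Lab M p r)
    (hK : K + s ≤ K1)
    (h : ∀ T', T ⊆ T' → Disjoint T' F → M x ⊆ T' → Win M τ c K1 T' F) :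
    Win M τ c (K1 + s) T F := by
  refine eval_config M τ c (t := x) (S.hs x hx) hTF ?_ h
  rintro F' hF hd ⟨D, hD, hDF⟩
  rcases hsemi D hD with h1 | h1
  · exact absurd hDF (disjoint_left.1 hd h1)
  · exact (S.collapse hd hp h1 hDF).mono hK

lemma Stage.endphase (S : Stage M τ c s k W d p q r K N) {T F : Finset L} (hTF : Disjoint T F)
    (hp : M p ⊆ T) {x m y : ℕ} (hrx : r ≤ x) (hxm : x < m) (hmy : m < y) (hyq : y ≤ q)
    (hsemi : ∀ D ∈ M x, D ∈ T ∨ D ∈ Lab M p r) (hy : ∃ D ∈ M y, D ∈ F)
    (hL : ¬ Rk M k d (x + 1) m) (hR : ¬ Rk M k d (m + 1) (y - 1)) :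
    Win M τ c (K + 3 * s) T F := by
  have hqτ := S.hqτ
  have hpr := S.hpr
  have key : Win M τ c ((K + s + s) + s) T F := by
    refine eval_config M τ c (t := m) (S.hs m (by omega)) hTF ?_ ?_
    · rintro F' hF hd ⟨D, hD, hDF⟩
      refine S.verify hd hp (by omega) hsemi le_rfl ?_
      intro T' hT hd' hx
      rcases Nat.lt_or_ge (x + 1) m with h | h
      · refine eval_config M τ c (t := x + 1) (S.hs _ (by omega)) hd' ?_ ?_
        · rintro F2 hF2 hd2 ⟨D2, hD2, hDF2⟩
          exact Win.leaf x (by omega) hx D2 hD2 hDF2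
        · intro T2 hT2 hd2 h2
          exact S.hA (x + 1) m T2 F' hd2 (by omega) h (by omega) h2 ⟨D, hD, hDF⟩ hL
      · obtain rfl : m = x + 1 := by omega
        exact Win.leaf x (by omega) hx D hD hDF
    · intro T' hT hd hm
      obtain ⟨D, hD, hDF⟩ := hy
      rcases Nat.lt_or_ge (m + 1) y with h | h
      · refine eval_config M τ c (t := m + 1) (S.hs _ (by omega)) hd ?_ ?_
        · rintro F2 hF2 hd2 ⟨D2, hD2, hDF2⟩
          exact Win.leaf m (by omega) hm D2 hD2 hDF2
        · intro T2 hT2 hd2 h2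
          obtain ⟨v, rfl⟩ : ∃ v, y = v + 1 := ⟨y - 1, by omega⟩
          rcases Nat.lt_or_ge (m + 1) v with h' | h'
          · refine eval_config M τ c (t := v) (S.hs _ (by omega)) hd2 ?_ ?_
            · intro F3 hF3 hd3 h3
              exact S.hA (m + 1) v T2 F3 hd3 (by omega) h' (by omega) h2 h3 (by simpa using hR)
            · intro T3 hT3 hd3 h3
              exact Win.leaf v (by omega) h3 D hD hDF
          · obtain rfl : v = m + 1 := by omega
            exact Win.leaf (m + 1) (by omega) h2 D hD hDF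
      · obtain rfl : y = m + 1 := by omega
        exact Win.leaf m (by omega) hm D hD hDF
  exact key.mono (by omega)

/-- evaluate the fresh labels of a configuration -/
lemma Stage.fresh (S : Stage M τ c s k W d p q r K N) {T F : Finset L} (hTF : Disjoint T F)
    {z K1 : ℕ} (hz : z ≤ q) (hk : (M z \ Lab M p r).card ≤ k)
    (hdead : ∀ F', F ⊆ F' → Disjoint T F' → (∃ D ∈ M z, D ∈ F') → Win M τ c K1 T F')
    (halive : ∀ T', T ⊆ T' → Disjoint T' F → (∀ D ∈ M z, D ∈ T' ∨ D ∈ Lab M p r) →
      Win M τ c K1 T' F) : Win M τ c (K1 + k * W) T F := by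
  have hcost : ∑ D ∈ M z \ Lab M p r, c D ≤ k * W := by
    calc ∑ D ∈ M z \ Lab M p r, c D ≤ ∑ D ∈ M z \ Lab M p r, W :=
          Finset.sum_le_sum (fun D hD => S.hW z hz D (mem_sdiff.1 hD).1)
      _ = (M z \ Lab M p r).card * W := by rw [Finset.sum_const, smul_eq_mul]
      _ ≤ k * W := Nat.mul_le_mul_right _ hk
  by_cases h : ∃ D ∈ M z \ Lab M p r, D ∈ F
  · obtain ⟨D, hD, hDF⟩ := h
    exact (hdead F (Subset.refl _) hTF ⟨D, (mem_sdiff.1 hD).1, hDF⟩).mono (by omega)
  · push Not at h
    have := Win.eval (M := M) (τ := τ) (c := c) (k := K1) (T := T) (F := F) (M z \ Lab M p r)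
      (by
        intro D hD hDT
        refine hdead _ (subset_insert _ _) ?_ ⟨D, (mem_sdiff.1 hD).1, mem_insert_self _ _⟩
        rw [disjoint_insert_right]; exact ⟨hDT, hTF⟩)
      (by
        refine halive _ subset_union_left ?_ ?_
        · rw [disjoint_union_left]
          exact ⟨hTF, disjoint_left.2 (fun D hD => h D hD)⟩
        · intro D hD
          by_cases hl : D ∈ Lab M p r
          · exact Or.inr hl
          · exact Or.inl (mem_union_right _ (mem_sdiff.2 ⟨hD, hl⟩)))
    exact this.mono (by omega)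

lemma Stage.body (S : Stage M τ c s k W d p q r K N) : ∀ (j : ℕ) (x y : ℕ) (T F : Finset L),
    Disjoint T F → M p ⊆ T → r ≤ x → x < y → y ≤ q → y - x ≤ N * 2 ^ j →
    (∀ D ∈ M x, D ∈ T ∨ D ∈ Lab M p r) → (∃ D ∈ M y, D ∈ F) →
    Win M τ c (K + 3 * s + 2 * (k * W) * j) T F := by
  have hqτ := S.hqτ
  have hpr := S.hpr
  intro j
  induction j with
  | zero =>
    intro x y T F hTF hp hrx hxy hyq hlen hsemi hy
    have : Win M τ c ((K + s) + s) T F := by
      refine S.verify hTF hp (by omega) hsemi le_rfl ?_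
      intro T' hT hd hx
      exact (S.hB x y T' F hd (by omega) hxy hyq hx hy (by simpa using hlen)).mono (by omega)
    exact this.mono (by omega)
  | succ j ih =>
    intro x y T F hTF hp hrx hxy hyq hlen hsemi hy
    rcases Nat.lt_or_ge (x + 1) y with hxy1 | hxy1
    swap
    · obtain rfl : y = x + 1 := by omega
      obtain ⟨D, hD, hDF⟩ := hy
      have : Win M τ c ((K + s) + s) T F := by
        refine S.verify hTF hp (by omega) hsemi le_rfl ?_
        intro T' hT hd hx
        exact Win.leaf x (by omega) hx D hD hDF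
      exact this.mono (by omega)
    obtain ⟨m, hxm, hmy, hm1, hm2⟩ : ∃ m, x < m ∧ m < y ∧ m - x ≤ N * 2 ^ j ∧ y - m ≤ N * 2 ^ j := by
      refine ⟨x + (y - x) / 2, by omega, by omega, ?_, ?_⟩
      · rw [pow_succ, ← mul_assoc] at hlen
        generalize N * 2 ^ j = A at *
        omega
      · rw [pow_succ, ← mul_assoc] at hlen
        generalize N * 2 ^ j = A at *
        omega
    -- right step
    have right : ∀ (x' : ℕ) (T' : Finset L), T ⊆ T' → Disjoint T' F → r ≤ x' → x' < m →
        (∀ D ∈ M x', D ∈ T' ∨ D ∈ Lab M p r) → ¬ Rk M k d (x' + 1) m →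
        Win M τ c ((K + 3 * s + 2 * (k * W) * j) + k * W) T' F := by
      intro x' T' hT hd hrx' hx'm hsemi' hL
      by_cases hR : Rk M k d (m + 1) (y - 1)
      · classical
        have hex : ∃ b, Rk M k d (m + 1) b := ⟨_, hR⟩
        obtain ⟨b, hb, hbmin⟩ : ∃ b, Rk M k d (m + 1) b ∧ ∀ b', b' < b → ¬ Rk M k d (m + 1) b' :=
          ⟨Nat.find hex, Nat.find_spec hex, fun b' hb' => Nat.find_min hex hb'⟩
        have hby : b ≤ y - 1 := by
          by_contra hcon
          exact hbmin (y - 1) (by omega) hR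
        obtain ⟨z, hz1, hz2, hz3⟩ := S.hfresh (m + 1) b hb (by omega) (by omega)
        refine S.fresh hd (z := z) (by omega) hz3 ?_ ?_
        · intro F' hF hd' hzF
          have := S.endphase hd' (hp.trans hT) hrx' hx'm (y := z) (by omega) (by omega) hsemi' hzF hL
            (hbmin (z - 1) (by omega))
          exact this.mono (by omega)
        · intro T2 hT2 hd2 hsemi2
          exact ih z y T2 F hd2 (hp.trans (hT.trans hT2)) (by omega) (by omega) hyq (by omega)
            hsemi2 hy
      · have := S.endphase hd (hp.trans hT) hrx' hx'm hmy hyq hsemi' hy hL hR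
        exact this.mono (by omega)
    have fin : Win M τ c (((K + 3 * s + 2 * (k * W) * j) + k * W) + k * W) T F := by
      by_cases hL : Rk M k d (x + 1) m
      · classical
        obtain ⟨a, hxa, ha, hamax⟩ : ∃ a, x + 1 ≤ a ∧ Rk M k d a m ∧
            ∀ a', a < a' → ¬ Rk M k d a' m := by
          refine ⟨Nat.findGreatest (fun a => Rk M k d a m) m, ?_, ?_, ?_⟩
          · exact Nat.le_findGreatest (Rk_le hL) hL
          · exact Nat.findGreatest_spec (P := fun a => Rk M k d a m) (Rk_le hL) hL
          · intro a' ha' hcon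
            exact Nat.findGreatest_is_greatest ha' (Rk_le hcon) hcon
        have ham := Rk_le ha
        obtain ⟨z, hz1, hz2, hz3⟩ := S.hfresh a m ha (by omega) (by omega)
        refine S.fresh hTF (z := z) (by omega) hz3 ?_ ?_
        · intro F' hF hd' hzF
          have := ih x z T F' hd' hp hrx (by omega) (by omega) (by omega) hsemi hzF
          exact this.mono (by omega)
        · intro T2 hT2 hd2 hsemi2
          rcases Nat.lt_or_ge z m with hzm | hzm
          · exact right z T2 hT2 hd2 (by omega) hzm hsemi2 (hamax (z + 1) (by omega))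
          · obtain rfl : z = m := by omega
            have := ih z y T2 F hd2 (hp.trans hT2) (by omega) (by omega) hyq (by omega) hsemi2 hy
            exact this.mono (by omega)
      · exact (right x T (Subset.refl _) hTF hrx hxm hsemi hL).mono (by omega)
    refine fin.mono ?_
    have : 2 * (k * W) * (j + 1) = 2 * (k * W) * j + 2 * (k * W) := by ring
    omega

lemma Stage.start (S : Stage M τ c s k W d p q r K N) {g : ℕ} {T F : Finset L}
    (hTF : Disjoint T F) (hp : M p ⊆ T) (hq : ∃ D ∈ M q, D ∈ F) (hlen : q - p ≤ N * 2 ^ g) :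
    Win M τ c (K + (3 * s + 2 * (k * W) * g)) T F := by
  have hpr := S.hpr
  rcases Nat.lt_or_ge r q with h | h
  · have := S.body g r q T F hTF hp le_rfl h le_rfl (by omega)
      (fun D hD => Or.inr (mem_Lab.2 ⟨r, hpr, le_rfl, hD⟩)) hq
    exact this.mono (by omega)
  · obtain rfl : r = q := le_antisymm S.hrq h
    obtain ⟨D, hD, hDF⟩ := hq
    have := S.collapse hTF hp (mem_Lab.2 ⟨r, hpr, le_rfl, hD⟩) hDF
    exact this.mono (by omega)

end step

/-- **The main recursion.** -/
theorem main_all {s k g W : ℕ} (hs : ∀ t, t ≤ τ → ∑ D ∈ M t, c D ≤ s)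
    (hW : ∀ t, t ≤ τ → ∀ D ∈ M t, c D ≤ W) : ∀ d e : ℕ, Main M τ c s k g W d e := by
  intro d
  induction d with
  | zero =>
    intro e p q T F hTF hpq hqτ hp hq hRk hlen
    exact absurd hpq.le hRk
  | succ d ihd =>
    intro e
    induction e with
    | zero =>
      intro p q T F hTF hpq hqτ hp hq hRk hlen
      obtain ⟨D, hD, hDF⟩ := hq
      obtain rfl : q = p + 1 := by
        simp only [mul_zero, pow_zero] at hlen
        omega
      exact Win.leaf p (by omega) hp D hD hDF
    | succ e ihe =>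
      intro p q T F hTF hpq hqτ hp hq hRk hlen
      by_cases hd : Rk M k d p q
      swap
      · refine (ihd (e + 1) p q T F hTF hpq hqτ hp hq hd hlen).mono ?_
        exact Nat.mul_le_mul_right _ (by omega)
      classical
      have hex : ∃ r, Rk M k d p r := ⟨q, hd⟩
      obtain ⟨r, hr, hrmin⟩ : ∃ r, Rk M k d p r ∧ ∀ r', r' < r → ¬ Rk M k d p r' :=
        ⟨Nat.find hex, Nat.find_spec hex, fun b' hb' => Nat.find_min hex hb'⟩
      have hrq : r ≤ q := by
        by_contra hcon
        exact hrmin q (by omega) hd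
      have hpr := Rk_le hr
      have S : Stage M τ c s k W d p q r ((d + (e + 1)) * (3 * s + 2 * (k * W) * g))
          (2 ^ (g * e)) :=
        { hs := fun t ht => hs t (by omega)
          hW := fun t ht => hW t (by omega)
          hqτ := hqτ
          hpr := hpr
          hrq := hrq
          hr := hrmin
          hfresh := fun a b h1 h2 h3 => exists_fresh hRk hr h1 h2 h3
          hA := fun a b T' F' h1 h2 h3 h4 h5 h6 h7 =>
            ihd (e + 1) a b T' F' h1 h3 (by omega) h5 h6 h7 (by omega)
          hB := fun a b T' F' h1 h2 h3 h4 h5 h6 h7 =>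
            (ihe a b T' F' h1 h3 (by omega) h5 h6 (fun h => hRk (Rk_mono h h2 h4)) h7).mono
              (Nat.mul_le_mul_right _ (by omega)) }
      have := S.start (g := g) hTF hp hq (by
        rw [← pow_add]
        have : g * e + g = g * (e + 1) := by ring
        rw [this]; exact hlen)
      refine this.mono (le_of_eq ?_)
      ring

end Pool.Agent.H705.SD
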