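import Pool.Agent.H705.SD.RankA

set_option autoImplicit false

/-!
Nested form of the space depth theorem: capacity of intervals of times as a single potential,
references at all scales.
-/

namespace Pool.Agent.H705.SD

open Finset

variable {L : Type*} [DecidableEq L]

/-- probability weights on the times in `[a, b]` -/
structure IsW (τ : ℕ) (w : ℕ → ℝ) (a b : ℕ) : Prop where
  nonneg : ∀ t, 0 ≤ w t
  supp : ∀ t, w t ≠ 0 → a ≤ t ∧ t ≤ b
  sum : ∑ t ∈ Icc 0 τ, w t = 1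

lemma IsW.mono {τ : ℕ} {w : ℕ → ℝ} {a b a' b' : ℕ} (h : IsW τ w a b) (ha : a' ≤ a) (hb : b ≤ b') :
    IsW τ w a' b' :=
  ⟨h.nonneg, fun t ht => ⟨ha.trans (h.supp t ht).1, (h.supp t ht).2.trans hb⟩, h.sum⟩

/-- the entropy of the mixture of the configurations with weights `w` -/
noncomputable def Ent (M : ℕ → Finset L) (τ : ℕ) (w : ℕ → ℝ) : ℝ :=
  ∑ D ∈ Lab M 0 τ, Real.negMulLog (RankA.F M 0 τ w D)

/-- the capacity of the interval `[a, b]` is at least `e` -/
def Cap (M : ℕ → Finset L) (τ a b : ℕ) (e : ℝ) : Prop := ∃ w, IsW τ w a b ∧ e ≤ Ent M τ w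

variable {M : ℕ → Finset L} {τ : ℕ} {c : L → ℕ}

lemma Cap.mono {a b a' b' : ℕ} {e e' : ℝ} (h : Cap M τ a b e) (ha : a' ≤ a) (hb : b ≤ b')
    (he : e' ≤ e) : Cap M τ a' b' e' := by
  obtain ⟨w, h1, h2⟩ := h
  exact ⟨w, h1.mono ha hb, he.trans h2⟩

lemma IsW.exists {w : ℕ → ℝ} {a b : ℕ} (h : IsW τ w a b) : ∃ t, a ≤ t ∧ t ≤ b ∧ t ≤ τ := by
  have h1 : ∑ t ∈ Icc 0 τ, w t ≠ 0 := by rw [h.sum]; norm_num
  obtain ⟨t, ht, hw⟩ := Finset.exists_ne_zero_of_sum_ne_zero h1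
  rw [mem_Icc] at ht
  exact ⟨t, (h.supp t hw).1, (h.supp t hw).2, ht.2⟩

lemma Cap.le {a b : ℕ} {e : ℝ} (h : Cap M τ a b e) : a ≤ b := by
  obtain ⟨w, h1, -⟩ := h
  obtain ⟨t, h2, h3, -⟩ := h1.exists
  omega

lemma cap_single {a b : ℕ} (hab : a ≤ b) (haτ : a ≤ τ) : Cap M τ a b 0 := by
  have hs : ∑ t ∈ Icc 0 τ, (if t = a then (1:ℝ) else 0) = 1 := by
    rw [sum_ite_eq' (Icc 0 τ) a (fun _ => (1:ℝ)), if_pos (mem_Icc.2 ⟨Nat.zero_le _, haτ⟩)]
  have h0 : ∀ t, 0 ≤ (fun t => if t = a then (1:ℝ) else 0) t := by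
    intro t; simp only; split_ifs <;> norm_num
  refine ⟨fun t => if t = a then 1 else 0, ⟨h0, ?_, hs⟩, ?_⟩
  · intro t ht
    have : t = a := by
      by_contra hne
      exact ht (if_neg hne)
    subst this
    exact ⟨le_rfl, hab⟩
  · unfold Ent
    refine sum_nonneg fun D _ => ?_
    apply Real.negMulLog_nonneg (RankA.F_nonneg h0 D)
    exact (RankA.F_le h0 D).trans hs.le

lemma cap_upper (ℓ : L → ℝ) {H Z : ℝ} {a b : ℕ} {e : ℝ}
    (hZ : ∀ U : Finset L, ∑ D ∈ U, Real.exp (-ℓ D) ≤ Z)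
    (hH : ∀ t, t ≤ τ → ∑ D ∈ M t, ℓ D ≤ H) (h : Cap M τ a b e) : e ≤ H + Z := by
  obtain ⟨w, ⟨p, -, s⟩, he⟩ := h
  refine he.trans ?_
  unfold Ent
  have h1 : ∑ D ∈ Lab M 0 τ, Real.negMulLog (RankA.F M 0 τ w D) ≤
      ∑ D ∈ Lab M 0 τ, (RankA.F M 0 τ w D * ℓ D + Real.exp (-ℓ D)) :=
    sum_le_sum fun D _ => RankA.negMulLog_up (RankA.F_nonneg p D) (ℓ D)
  refine h1.trans ?_
  rw [sum_add_distrib]
  refine add_le_add ?_ (hZ _)
  rw [RankA.F_sum]
  calc ∑ t ∈ Icc 0 τ, w t * ∑ D ∈ (Lab M 0 τ).filter (fun D => D ∈ M t), ℓ D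
      ≤ ∑ t ∈ Icc 0 τ, w t * H := by
        refine sum_le_sum fun t ht => mul_le_mul_of_nonneg_left ?_ (p t)
        rw [mem_Icc] at ht
        have e2 : (Lab M 0 τ).filter (fun D => D ∈ M t) = M t := by
          ext D
          rw [mem_filter]
          constructor
          · exact fun h => h.2
          · exact fun h => ⟨mem_Lab.2 ⟨t, ht.1, ht.2, h⟩, h⟩
        rw [e2]
        exact hH t ht.2
    _ = H := by rw [← sum_mul, s, one_mul]

/-- mixing two intervals -/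
lemma cap_mix {w1 w2 : ℕ → ℝ} {a1 b1 a2 b2 a' b' k : ℕ} (h1 : IsW τ w1 a1 b1)
    (h2 : IsW τ w2 a2 b2) (ha1 : a' ≤ a1) (hb1 : b1 ≤ b') (ha2 : a' ≤ a2) (hb2 : b2 ≤ b')
    {R1 : Finset L} (hR1 : Lab M a1 b1 ⊆ R1) :
    Cap M τ a' b' ((Ent M τ w1 + Ent M τ w2) / 2 + ((k : ℝ) + 1) * (Real.log 2 / 2) *
      ∑ t ∈ Icc 0 τ, (if (M t \ R1).card ≤ k then 0 else w2 t)) := by
  obtain ⟨p1, q1, s1⟩ := h1
  obtain ⟨p2, q2, s2⟩ := h2
  refine ⟨fun t => (w1 t + w2 t) / 2, ⟨fun t => ?_, fun t ht => ?_, ?_⟩, ?_⟩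
  · have := p1 t; have := p2 t; positivity
  · by_cases hw1 : w1 t = 0
    · have hw2 : w2 t ≠ 0 := by
        intro h0
        apply ht
        simp [hw1, h0]
      have := q2 t hw2
      omega
    · have := q1 t hw1
      omega
  · rw [← sum_div, sum_add_distrib, s1, s2]; norm_num
  · unfold Ent
    have hF : ∀ D, RankA.F M 0 τ (fun t => (w1 t + w2 t) / 2) D =
        (RankA.F M 0 τ w1 D + RankA.F M 0 τ w2 D) / 2 := by
      intro D
      unfold RankA.F
      rw [← sum_add_distrib, sum_div]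
      refine sum_congr rfl fun t _ => ?_
      ring
    have hl2 : 0 ≤ Real.log 2 := Real.log_nonneg (by norm_num)
    have hterm : ∀ D ∈ Lab M 0 τ, (Real.negMulLog (RankA.F M 0 τ w1 D) +
        Real.negMulLog (RankA.F M 0 τ w2 D)) / 2 +
        (if D ∈ R1 then 0 else RankA.F M 0 τ w2 D / 2 * Real.log 2) ≤
        Real.negMulLog (RankA.F M 0 τ (fun t => (w1 t + w2 t) / 2) D) := by
      intro D _
      rw [hF]
      split_ifs with hD
      · rw [add_zero]
        exact RankA.negMulLog_mid (RankA.F_nonneg p1 D) (RankA.F_nonneg p2 D)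
      · have hz : RankA.F M 0 τ w1 D = 0 := by
          unfold RankA.F
          refine sum_eq_zero fun t _ => ?_
          by_cases hw : w1 t = 0
          · rw [hw, zero_mul]
          · have := q1 t hw
            rw [if_neg, mul_zero]
            intro hDt
            exact hD (hR1 (mem_Lab.2 ⟨t, this.1, this.2, hDt⟩))
        rw [hz, zero_add, RankA.negMulLog_half, Real.negMulLog_zero, zero_add]
    have hsum := sum_le_sum hterm
    rw [sum_add_distrib, ← sum_div, sum_add_distrib] at hsum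
    have hnew : ((k : ℝ) + 1) * (Real.log 2 / 2) *
        ∑ t ∈ Icc 0 τ, (if (M t \ R1).card ≤ k then 0 else w2 t) ≤
        ∑ D ∈ Lab M 0 τ, (if D ∈ R1 then 0 else RankA.F M 0 τ w2 D / 2 * Real.log 2) := by
      have g1 : ∑ D ∈ Lab M 0 τ, (if D ∈ R1 then 0 else
          RankA.F M 0 τ w2 D / 2 * Real.log 2) =
          ∑ D ∈ (Lab M 0 τ).filter (fun D => D ∉ R1),
            RankA.F M 0 τ w2 D * (Real.log 2 / 2) := by
        rw [sum_filter]
        refine sum_congr rfl fun D _ => ?_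
        split_ifs <;> ring
      rw [g1, RankA.F_sum, mul_sum]
      refine sum_le_sum fun t ht => ?_
      rw [mem_Icc] at ht
      have hnn : 0 ≤ ∑ D ∈ ((Lab M 0 τ).filter (fun D => D ∉ R1)).filter
            (fun D => D ∈ M t), Real.log 2 / 2 := sum_nonneg fun _ _ => by linarith
      split_ifs with hk
      · rw [mul_zero]
        exact mul_nonneg (p2 t) hnn
      · rw [mul_comm]
        apply mul_le_mul_of_nonneg_left _ (p2 t)
        have hsub : M t \ R1 ⊆ ((Lab M 0 τ).filter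
            (fun D => D ∉ R1)).filter (fun D => D ∈ M t) := by
          intro D hD
          rw [mem_sdiff] at hD
          rw [mem_filter, mem_filter]
          exact ⟨⟨mem_Lab.2 ⟨t, ht.1, ht.2, hD.1⟩, hD.2⟩, hD.1⟩
        have hc : k + 1 ≤ (((Lab M 0 τ).filter
            (fun D => D ∉ R1)).filter (fun D => D ∈ M t)).card :=
          (not_le.1 hk).trans_le (card_le_card hsub)
        rw [sum_const, nsmul_eq_mul]
        apply mul_le_mul_of_nonneg_right
        · exact_mod_cast hc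
        · linarith
    linarith

open Classical in
/-- weights of capacity at least `θ` on `[lo, hi]` give weight at most `i / J` to the bad times -/
def Inv (M : ℕ → Finset L) (τ : ℕ) (J : ℝ) (Gd : ℕ → Prop) (i : ℕ) (θ : ℝ) (lo hi : ℕ) : Prop :=
  ∀ w, IsW τ w lo hi → θ ≤ Ent M τ w → ∑ t ∈ Icc 0 τ, (if Gd t then 0 else w t) ≤ i / J

lemma Inv.mono {J : ℝ} {Gd : ℕ → Prop} {i : ℕ} {θ θ' : ℝ} {lo hi lo' hi' : ℕ}
    (h : Inv M τ J Gd i θ lo hi) (h1 : lo ≤ lo') (h2 : hi' ≤ hi) (h3 : θ ≤ θ') :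
    Inv M τ J Gd i θ' lo' hi' := fun w hw he => h w (hw.mono h1 h2) (h3.trans he)

lemma Inv.good {J : ℝ} {Gd : ℕ → Prop} {i : ℕ} {θ : ℝ} {lo hi a b : ℕ}
    (h : Inv M τ J Gd i θ lo hi) (hJ : (i : ℝ) < J) (hc : Cap M τ a b θ) (ha : lo ≤ a)
    (hb : b ≤ hi) : ∃ z, a ≤ z ∧ z ≤ b ∧ Gd z := by
  classical
  by_contra hcon
  push Not at hcon
  obtain ⟨w, hw, he⟩ := hc
  have h1 := h w (hw.mono ha hb) he
  have h2 : ∑ t ∈ Icc 0 τ, (if Gd t then 0 else w t) = ∑ t ∈ Icc 0 τ, w t := by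
    refine sum_congr rfl fun t _ => ?_
    by_cases h0 : w t = 0
    · rw [h0]; simp
    · have := hw.supp t h0
      rw [if_neg (hcon t this.1 this.2)]
  rw [h2, hw.sum] at h1
  have hJ0 : 0 < J := lt_of_le_of_lt (Nat.cast_nonneg i) hJ
  have : (i : ℝ) / J < 1 := by rw [div_lt_one hJ0]; exact hJ
  linarith

lemma Inv.new {J : ℝ} {Gd : ℕ → Prop} {i k : ℕ} {θ : ℝ} {lo hi lo' hi' x' y' r : ℕ}
    (hJ : 0 < J) (h : Inv M τ J Gd i θ lo hi) (hc : Cap M τ x' r θ)
    (hn : ¬ Cap M τ x' y' (θ + ((k : ℝ) + 1) * (Real.log 2 / (2 * J))))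
    {R1 : Finset L} (hR1 : Lab M x' r ⊆ R1) (h1 : lo ≤ lo') (h2 : hi' ≤ hi) (h3 : hi' ≤ y')
    (h4 : x' ≤ lo') (h5 : r ≤ y') :
    Inv M τ J (fun z => Gd z ∧ (M z \ R1).card ≤ k) (i + 1) θ lo' hi' := by
  classical
  intro w2 hw2 he2
  obtain ⟨w1, hw1, he1⟩ := hc
  have hA := h w2 (hw2.mono h1 h2) he2
  have hB : ∑ t ∈ Icc 0 τ, (if (M t \ R1).card ≤ k then 0 else w2 t) ≤ 1 / J := by
    by_contra hcon
    push Not at hcon
    apply hn
    have hmix := cap_mix (M := M) (τ := τ) (k := k) hw1 hw2 (le_refl x') h5 h4 h3 hR1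
    refine hmix.mono le_rfl le_rfl ?_
    have hl2 : 0 < Real.log 2 := Real.log_pos (by norm_num)
    have hk : 0 < ((k : ℝ) + 1) * (Real.log 2 / 2) := by positivity
    have h6 : ((k : ℝ) + 1) * (Real.log 2 / (2 * J)) = ((k : ℝ) + 1) * (Real.log 2 / 2) * (1 / J) := by
      field_simp
    rw [h6]
    have h7 := mul_le_mul_of_nonneg_left hcon.le hk.le
    linarith
  refine le_trans (sum_le_sum (g := fun t => (if Gd t then 0 else w2 t) +
    (if (M t \ R1).card ≤ k then 0 else w2 t)) fun t _ => ?_) ?_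
  · have := hw2.nonneg t
    by_cases c1 : Gd t <;> by_cases c2 : (M t \ R1).card ≤ k <;> simp [c1, c2, this]
  · rw [sum_add_distrib]
    have h8 : (i : ℝ) / J + 1 / J = ((i + 1 : ℕ) : ℝ) / J := by push_cast; ring
    rw [← h8]
    exact add_le_add hA hB

/-! ### The nested game -/

section game

variable (M τ c)

/-- the exits of a game: consecutive good times `z`, with everything in between bad -/
def Exits (Gd : ℕ → Prop) (R : Finset L) (x y K : ℕ) (T F : Finset L) : Prop :=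
  ∀ (z t : ℕ) (T' F' : Finset L), x ≤ z → z ≤ t → t + 1 ≤ y → Gd z →
    (∀ z', z < z' → z' ≤ t → ¬ Gd z') → T ⊆ T' → F ⊆ F' → Disjoint T' F' → M z ⊆ T' ∪ R →
    (∃ D ∈ M (t + 1), D ∈ F') → Win M τ c K T' F'

/-- progress: a state of capacity below `θ` -/
def Progs (Gd : ℕ → Prop) (R : Finset L) (θ : ℝ) (x y K : ℕ) (T F : Finset L) : Prop :=
  ∀ (x' y' : ℕ) (T' F' : Finset L), x ≤ x' → x' < y' → y' ≤ y → Gd x' → T ⊆ T' → F ⊆ F' →
    Disjoint T' F' → M x' ⊆ T' ∪ R → (∃ D ∈ M y', D ∈ F') → ¬ Cap M τ (x' + 1) (y' - 1) θ →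
    Win M τ c K T' F'

/-- one stage: from capacity below `θ + 2 ^ u * η` to capacity below `θ` -/
def OneS (J η : ℝ) (u C A : ℕ) : Prop :=
  ∀ (Gd : ℕ → Prop) (R : Finset L) (i : ℕ) (θ : ℝ) (x y K : ℕ) (T F : Finset L),
    ((i + 1 + u : ℕ) : ℝ) < J → (∀ z, z ≤ τ → Gd z → ∑ D ∈ M z \ R, c D ≤ C) →
    Inv M τ J Gd i θ (x + 1) (y - 1) → Gd x → M x ⊆ T ∪ R → x < y → y ≤ τ →
    (∃ D ∈ M y, D ∈ F) → Disjoint T F → ¬ Cap M τ (x + 1) (y - 1) (θ + 2 ^ u * η) →
    Exits M τ c Gd R x y K T F → Progs M τ c Gd R θ x y K T F → Win M τ c (K + A) T F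

/-- the game for good times with at most `2 ^ u - 1` unknown labels -/
def RunG (J η : ℝ) (u B : ℕ) : Prop :=
  ∀ (Gd : ℕ → Prop) (R : Finset L) (i : ℕ) (θ : ℝ) (x y K : ℕ) (T F : Finset L),
    ((i + u : ℕ) : ℝ) < J → (∀ z, z ≤ τ → Gd z → (M z \ R).card ≤ 2 ^ u - 1) →
    Inv M τ J Gd i θ (x + 1) (y - 1) → Gd x → M x ⊆ T ∪ R → x < y → y ≤ τ →
    (∃ D ∈ M y, D ∈ F) → Disjoint T F → ¬ Cap M τ (x + 1) (y - 1) (θ + 2 ^ u * η) →
    Exits M τ c Gd R x y K T F → Progs M τ c Gd R θ x y K T F → Win M τ c (K + B) T F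

end game

lemma Exits.sub {Gd : ℕ → Prop} {R : Finset L} {x y K : ℕ} {T F : Finset L}
    (h : Exits M τ c Gd R x y K T F) {x' y' K' : ℕ} {T' F' : Finset L} (hx : x ≤ x') (hy : y' ≤ y)
    (hT : T ⊆ T') (hF : F ⊆ F') (hK : K ≤ K') : Exits M τ c Gd R x' y' K' T' F' := by
  intro z t T2 F2 h1 h2 h3 h4 h5 h6 h7 h8 h9 h10
  exact (h z t T2 F2 (by omega) h2 (by omega) h4 h5 (hT.trans h6) (hF.trans h7) h8 h9 h10).mono hK

lemma Progs.sub {Gd : ℕ → Prop} {R : Finset L} {θ : ℝ} {x y K : ℕ} {T F : Finset L}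
    (h : Progs M τ c Gd R θ x y K T F) {x' y' K' : ℕ} {T' F' : Finset L} (hx : x ≤ x')
    (hy : y' ≤ y) (hT : T ⊆ T') (hF : F ⊆ F') (hK : K ≤ K') :
    Progs M τ c Gd R θ x' y' K' T' F' := by
  intro x2 y2 T2 F2 h1 h2 h3 h4 h6 h7 h8 h9 h10 h11
  exact (h x2 y2 T2 F2 (by omega) h2 (by omega) h4 (hT.trans h6) (hF.trans h7) h8 h9 h10 h11).mono hK

/-- evaluate the unknown labels of the configuration at time `z` -/
lemma eval_rel {R : Finset L} {z K1 C : ℕ} {T F : Finset L} (hTF : Disjoint T F)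
    (hC : ∑ D ∈ M z \ R, c D ≤ C)
    (hdead : ∀ F', F ⊆ F' → Disjoint T F' → (∃ D ∈ M z, D ∉ R ∧ D ∈ F') → Win M τ c K1 T F')
    (halive : ∀ T', T ⊆ T' → Disjoint T' F → M z ⊆ T' ∪ R → Win M τ c K1 T' F) :
    Win M τ c (K1 + C) T F := by
  by_cases h : ∃ D ∈ M z \ R, D ∈ F
  · obtain ⟨D, hD, hDF⟩ := h
    rw [mem_sdiff] at hD
    exact (hdead F (Subset.refl _) hTF ⟨D, hD.1, hD.2, hDF⟩).mono (by omega)
  · push Not at h
    have := Win.eval (M := M) (τ := τ) (c := c) (k := K1) (T := T) (F := F) (M z \ R)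
      (by
        intro D hD hDT
        rw [mem_sdiff] at hD
        refine hdead _ (subset_insert _ _) ?_ ⟨D, hD.1, hD.2, mem_insert_self _ _⟩
        rw [disjoint_insert_right]; exact ⟨hDT, hTF⟩)
      (by
        refine halive _ subset_union_left ?_ ?_
        · rw [disjoint_union_left]
          exact ⟨hTF, disjoint_left.2 (fun D hD => h D hD)⟩
        · intro D hD
          rw [mem_union, mem_union, mem_sdiff]
          by_cases hl : D ∈ R
          · exact Or.inr hl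
          · exact Or.inl (Or.inr ⟨hD, hl⟩))
    exact this.mono (by omega)

lemma exists_last' (Gd : ℕ → Prop) {r t : ℕ} (hr : Gd r) (hrt : r ≤ t) :
    ∃ z, r ≤ z ∧ z ≤ t ∧ Gd z ∧ ∀ z', z < z' → z' ≤ t → ¬ Gd z' := by
  classical
  refine ⟨Nat.findGreatest (fun z => r ≤ z ∧ Gd z) t, ?_, Nat.findGreatest_le _, ?_, ?_⟩
  · exact (Nat.findGreatest_spec (P := fun z => r ≤ z ∧ Gd z) hrt ⟨le_rfl, hr⟩).1
  · exact (Nat.findGreatest_spec (P := fun z => r ≤ z ∧ Gd z) hrt ⟨le_rfl, hr⟩).2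
  · intro z' h1 h2 h3
    have h4 := (Nat.findGreatest_spec (P := fun z => r ≤ z ∧ Gd z) hrt ⟨le_rfl, hr⟩).1
    exact Nat.findGreatest_is_greatest h1 h2 ⟨by omega, h3⟩

theorem runG_zero (J η : ℝ) : RunG M τ c J η 0 0 := by
  intro Gd R i θ x y K T F hJ hcard hInv hx hMx hxy hyτ hy hTF hcap hE hP
  obtain ⟨z, h1, h2, h3, h4⟩ := exists_last' Gd hx (show x ≤ y - 1 by omega)
  have h5 : y - 1 + 1 = y := by omega
  refine hE z (y - 1) T F h1 h2 (by omega) h3 h4 (Subset.refl _) (Subset.refl _) hTF ?_ ?_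
  · have h6 := hcard z (by omega) h3
    simp only [pow_zero, Nat.sub_self, Nat.le_zero, card_eq_zero, sdiff_eq_empty_iff_subset] at h6
    exact h6.trans subset_union_right
  · rw [h5]; exact hy

theorem oneS_of_run {J : ℝ} (hJ0 : 0 < J) {u B C : ℕ}
    (hrun : RunG M τ c J (Real.log 2 / (2 * J)) u B) :
    OneS M τ c J (Real.log 2 / (2 * J)) u C (2 * C + B) := by
  classical
  intro Gd R i θ x y K T F hJ hC hInv hx hMx hxy hyτ hy hTF hcap hE hP
  by_cases hc : Cap M τ (x + 1) (y - 1) θ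
  swap
  · exact (hP x y T F le_rfl hxy le_rfl hx (Subset.refl _) (Subset.refl _) hTF hMx hy hc).mono
      (by omega)
  -- the reference interval
  have hex : ∃ r, Cap M τ (x + 1) r θ := ⟨_, hc⟩
  obtain ⟨r, hr, hrmin⟩ : ∃ r, Cap M τ (x + 1) r θ ∧ ∀ r', r' < r → ¬ Cap M τ (x + 1) r' θ :=
    ⟨Nat.find hex, Nat.find_spec hex, fun b' hb' => Nat.find_min hex hb'⟩
  have hry : r ≤ y - 1 := by
    by_contra hcon
    exact hrmin (y - 1) (by omega) hc
  have hxr := hr.le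
  have hsemi : ∀ {T' F' : Finset L} {D : L}, T ⊆ T' → Disjoint T' F' → D ∈ M x → D ∉ R →
      D ∈ F' → False := by
    intro T' F' D hT hd h1 h2 h3
    rcases mem_union.1 (hMx h1) with h4 | h4
    · exact (disjoint_left.1 hd (hT h4)) h3
    · exact h2 h4
  -- the last good time up to `r`
  obtain ⟨r1, g1, g2, g3, g4⟩ := exists_last' Gd hx (show x ≤ r by omega)
  -- a dead end not after `r` is progress
  have collapse : ∀ (t : ℕ) (T' F' : Finset L), x < t → t ≤ r → T ⊆ T' → F ⊆ F' →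
      Disjoint T' F' → (∃ D ∈ M t, D ∈ F') → Win M τ c K T' F' := by
    intro t T' F' h1 h2 hT hF hd h3
    exact hP x t T' F' le_rfl h1 (by omega) hx hT hF hd (hMx.trans (union_subset_union_left hT)) h3
      (hrmin (t - 1) (by omega))
  -- evaluating `r1` when everything good after `r1` and before `t + 1` is excluded
  have evr1 : ∀ (t : ℕ) (T' F' : Finset L), r1 ≤ t → t + 1 ≤ y →
      (∀ z', r1 < z' → z' ≤ t → ¬ Gd z') → T ⊆ T' → F ⊆ F' →
      Disjoint T' F' → (∃ D ∈ M (t + 1), D ∈ F') → Win M τ c (K + C) T' F' := by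
    intro t T' F' h1 h2 h3 hT hF hd h4
    refine eval_rel hd (hC r1 (by omega) g3) ?_ ?_
    · rintro F2 hF2 hd2 ⟨D, hD, hDR, hDF⟩
      rcases Nat.lt_or_ge x r1 with h5 | h5
      · exact collapse r1 T' F2 h5 g2 hT (hF.trans hF2) hd2 ⟨D, hD, hDF⟩
      · obtain rfl : x = r1 := by omega
        exact (hsemi hT hd2 hD hDR hDF).elim
    · intro T2 hT2 hd2 hM2
      exact hE r1 t T2 F' g1 h1 h2 g3 h3 (hT.trans hT2) hF hd2 hM2 h4
  by_cases hex2 : ∃ z, r < z ∧ z < y ∧ Gd z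
  swap
  · push Not at hex2
    have h5 : y - 1 + 1 = y := by omega
    have := evr1 (y - 1) T F (by omega) (by omega) (by
      intro z' hz1 hz2
      rcases Nat.lt_or_ge r z' with h6 | h6
      · exact hex2 z' h6 (by omega)
      · exact g4 z' hz1 h6) (Subset.refl _) (Subset.refl _) hTF (by rw [h5]; exact hy)
    exact this.mono (by omega)
  -- the first good time after `r`
  obtain ⟨r2, ⟨f1, f2, f3⟩, f4⟩ : ∃ r2, (r < r2 ∧ r2 < y ∧ Gd r2) ∧
      ∀ z, z < r2 → ¬ (r < z ∧ z < y ∧ Gd z) :=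
    ⟨Nat.find hex2, Nat.find_spec hex2, fun b' hb' => Nat.find_min hex2 hb'⟩
  have key : Win M τ c (((K + C) + B) + C) T F := by
    refine eval_rel hTF (hC r2 (by omega) f3) ?_ ?_
    · rintro F2 hF2 hd2 ⟨D, hD, hDR, hDF⟩
      obtain ⟨v, rfl⟩ : ∃ v, r2 = v + 1 := ⟨r2 - 1, by omega⟩
      have := evr1 v T F2 (by omega) (by omega) (by
        intro z' hz1 hz2 hz3
        rcases Nat.lt_or_ge r z' with h6 | h6
        · exact f4 z' (by omega) ⟨h6, by omega, hz3⟩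
        · exact g4 z' hz1 h6 hz3) (Subset.refl _) hF2 hd2 ⟨D, hD, hDF⟩
      exact this.mono (by omega)
    · intro T1 hT1 hd1 hM1
      set R1 := Lab M x r ∪ M r2 with hR1
      -- the collapse after evaluating the unknown labels of a time `z`
      have verify : ∀ (z : ℕ) (T' F' : Finset L), z ≤ τ → Gd z → T1 ⊆ T' → F ⊆ F' →
          Disjoint T' F' → M z ⊆ T' ∪ (R ∪ R1) →
          (∀ T2, T' ⊆ T2 → Disjoint T2 F' → M z ⊆ T2 ∪ R → Win M τ c K T2 F') →
          Win M τ c (K + C) T' F' := by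
        intro z T' F' hzτ hz hT hF hd hM hcont
        refine eval_rel hd (hC z hzτ hz) ?_ hcont
        rintro F2 hF2 hd2 ⟨D, hD, hDR, hDF⟩
        rcases mem_union.1 (hM hD) with h6 | h6
        · exact absurd hDF (disjoint_left.1 hd2 h6)
        rcases mem_union.1 h6 with h6 | h6
        · exact absurd h6 hDR
        rcases mem_union.1 h6 with h6 | h6
        · obtain ⟨t, t1, t2, t3⟩ := mem_Lab.1 h6
          rcases Nat.lt_or_ge x t with h7 | h7
          · exact collapse t T' F2 h7 t2 (hT1.trans hT) (hF.trans hF2) hd2 ⟨D, t3, hDF⟩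
          · obtain rfl : x = t := by omega
            exact (hsemi (hT1.trans hT) hd2 t3 hDR hDF).elim
        · rcases mem_union.1 (hM1 h6) with h7 | h7
          · exact absurd hDF (disjoint_left.1 hd2 (hT h7))
          · exact absurd h7 hDR
      have hnewInv : Inv M τ J (fun z => Gd z ∧ (M z \ R1).card ≤ 2 ^ u - 1) (i + 1) θ
          (r2 + 1) (y - 1) := by
        have e1 : (((2 ^ u - 1 : ℕ) : ℝ) + 1) = 2 ^ u := by
          have : 1 ≤ 2 ^ u := Nat.one_le_two_pow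
          push_cast [Nat.cast_sub this]
          ring
        refine Inv.new (x' := x + 1) (y' := y - 1) (r := r) hJ0 hInv hr ?_ ?_ (by omega) le_rfl
          le_rfl (by omega) hry
        · rw [e1]; exact hcap
        · intro D hD
          obtain ⟨t, t1, t2, t3⟩ := mem_Lab.1 hD
          exact mem_union_left _ (mem_Lab.2 ⟨t, by omega, t2, t3⟩)
      refine hrun (fun z => Gd z ∧ (M z \ R1).card ≤ 2 ^ u - 1) (R ∪ R1) (i + 1) θ r2 y (K + C)
        T1 F hJ ?_ hnewInv ?_ ?_ f2 hyτ hy hd1 ?_ ?_ ?_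
      · rintro z hzτ ⟨hz1, hz2⟩
        refine (card_le_card ?_).trans hz2
        intro D hD
        rw [mem_sdiff] at hD ⊢
        exact ⟨hD.1, fun h => hD.2 (mem_union_right _ h)⟩
      · refine ⟨f3, ?_⟩
        have : M r2 \ R1 = ∅ := by
          rw [sdiff_eq_empty_iff_subset]
          exact subset_union_right
        rw [this]
        simp
      · exact hM1.trans (union_subset_union_right subset_union_left)
      · intro h6
        exact hcap (h6.mono (by omega) le_rfl le_rfl)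
      · intro z t T' F' h1 h2 h3 h4 h5 hT hF hd hM hdead
        refine verify z T' F' (by omega) h4.1 hT hF hd hM ?_
        intro T2 hT2 hd2 hM2
        refine hP z (t + 1) T2 F' (by omega) (by omega) (by omega) h4.1 ((hT1.trans hT).trans hT2)
          hF hd2 hM2 hdead ?_
        intro h6
        rw [Nat.add_sub_cancel] at h6
        obtain ⟨z', z1, z2, z3⟩ := hnewInv.good (by
          have h7 : ((i + 1 : ℕ) : ℝ) ≤ ((i + 1 + u : ℕ) : ℝ) := by exact_mod_cast Nat.le_add_right _ _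
          exact lt_of_le_of_lt h7 hJ) h6 (by omega) (by omega)
        exact h5 z' (by omega) z2 z3
      · intro x' y' T' F' h1 h2 h3 h4 hT hF hd hM hdead hcap'
        refine verify x' T' F' (by omega) h4.1 hT hF hd hM ?_
        intro T2 hT2 hd2 hM2
        exact hP x' y' T2 F' (by omega) h2 h3 h4.1 ((hT1.trans hT).trans hT2) hF hd2 hM2 hdead hcap'
  exact key.mono (by omega)

theorem runG_succ {J : ℝ} {u A W : ℕ} (hη : 0 ≤ Real.log 2 / (2 * J))
    (hW : ∀ t, t ≤ τ → ∀ D ∈ M t, c D ≤ W)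
    (hone : OneS M τ c J (Real.log 2 / (2 * J)) u ((2 ^ (u + 1) - 1) * W) A) :
    RunG M τ c J (Real.log 2 / (2 * J)) (u + 1) (2 * A) := by
  classical
  intro Gd R i θ x y K T F hJ hcard hInv hx hMx hxy hyτ hy hTF hcap hE hP
  have hC : ∀ z, z ≤ τ → Gd z → ∑ D ∈ M z \ R, c D ≤ (2 ^ (u + 1) - 1) * W := by
    intro z hz hg
    calc ∑ D ∈ M z \ R, c D ≤ ∑ D ∈ M z \ R, W :=
          Finset.sum_le_sum (fun D hD => hW z hz D (mem_sdiff.1 hD).1)
      _ = (M z \ R).card * W := by rw [Finset.sum_const, smul_eq_mul]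
      _ ≤ (2 ^ (u + 1) - 1) * W := Nat.mul_le_mul_right _ (hcard z hz hg)
  set η := Real.log 2 / (2 * J) with hηdef
  have h2u : (0 : ℝ) ≤ 2 ^ u * η := by positivity
  have hJ' : ((i + 1 + u : ℕ) : ℝ) < J := by
    have : i + 1 + u = i + (u + 1) := by ring
    rw [this]; exact hJ
  have step : ∀ (x y : ℕ) (T' F' : Finset L) (K' : ℕ) (θ' : ℝ), θ ≤ θ' →
      Inv M τ J Gd i θ (x + 1) (y - 1) → Gd x → M x ⊆ T' ∪ R → x < y → y ≤ τ →
      (∃ D ∈ M y, D ∈ F') → Disjoint T' F' → ¬ Cap M τ (x + 1) (y - 1) (θ' + 2 ^ u * η) →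
      Exits M τ c Gd R x y K' T' F' → Progs M τ c Gd R θ' x y K' T' F' →
      Win M τ c (K' + A) T' F' := by
    intro x y T' F' K' θ' hθ hInv hx hMx hxy hyτ hy hTF hcap hE hP
    exact hone Gd R i θ' x y K' T' F' hJ' hC (hInv.mono le_rfl le_rfl hθ) hx hMx hxy hyτ hy hTF
      hcap hE hP
  have h1 : Win M τ c ((K + A) + A) T F := by
    refine step x y T F (K + A) (θ + 2 ^ u * η) (by linarith) hInv hx hMx hxy hyτ hy hTF ?_
      (hE.sub le_rfl le_rfl (Subset.refl _) (Subset.refl _) (by omega)) ?_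
    · have : θ + 2 ^ u * η + 2 ^ u * η = θ + 2 ^ (u + 1) * η := by rw [pow_succ]; ring
      rw [this]; exact hcap
    · intro x' y' T' F' a1 a2 a3 a4 a5 a6 a7 a8 a9 a10
      exact step x' y' T' F' K θ le_rfl (hInv.mono (by omega) (by omega) le_rfl) a4 a8 a2
        (by omega) a9 a7 a10 (hE.sub a1 a3 a5 a6 le_rfl) (hP.sub a1 a3 a5 a6 le_rfl)
  exact h1.mono (by omega)

theorem runG_all {J : ℝ} (hJ : 0 < J) {W : ℕ} (hW : ∀ t, t ≤ τ → ∀ D ∈ M t, c D ≤ W) :
    ∀ u : ℕ, RunG M τ c J (Real.log 2 / (2 * J)) u (2 * W * u * 2 ^ (u + 1)) := by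
  have hη : 0 ≤ Real.log 2 / (2 * J) := by
    have := Real.log_nonneg (show (1:ℝ) ≤ 2 by norm_num)
    positivity
  intro u
  induction u with
  | zero => exact runG_zero J _
  | succ u ih =>
    have h1 := oneS_of_run (C := (2 ^ (u + 1) - 1) * W) hJ ih
    have h2 := runG_succ hη hW h1
    intro Gd R i θ x y K T F a1 a2 a3 a4 a5 a6 a7 a8 a9 a10 a11 a12
    refine (h2 Gd R i θ x y K T F a1 a2 a3 a4 a5 a6 a7 a8 a9 a10 a11 a12).mono ?_
    apply Nat.add_le_add_left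
    have h3 : (2 ^ (u + 1) - 1) * W ≤ 2 ^ (u + 1) * W := Nat.mul_le_mul_right _ (Nat.sub_le _ _)
    have h4 : 2 * (2 * (2 ^ (u + 1) * W) + 2 * W * u * 2 ^ (u + 1)) =
        2 * W * (u + 1) * 2 ^ (u + 1 + 1) := by
      rw [pow_succ 2 (u + 1)]; ring
    rw [← h4]
    omega

/-- **The nested bound.** -/
theorem nest_win {J : ℝ} {s W u m : ℕ} (hJ : ((1 + u : ℕ) : ℝ) < J)
    (hs : ∀ t, t ≤ τ → ∑ D ∈ M t, c D ≤ s) (hW : ∀ t, t ≤ τ → ∀ D ∈ M t, c D ≤ W)
    (ℓ : L → ℝ) {H Z : ℝ}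
    (hZ : ∀ U : Finset L, ∑ D ∈ U, Real.exp (-ℓ D) ≤ Z)
    (hH : ∀ t, t ≤ τ → ∑ D ∈ M t, ℓ D ≤ H)
    (hm : H + Z < m * (2 ^ u * (Real.log 2 / (2 * J))))
    {T F : Finset L} (hTF : Disjoint T F) (hτ : 0 < τ) (h0 : M 0 ⊆ T) (h1 : ∃ D ∈ M τ, D ∈ F) :
    Win M τ c (m * (2 * s + 2 * W * u * 2 ^ (u + 1))) T F := by
  have hJ0 : 0 < J := lt_of_le_of_lt (Nat.cast_nonneg _) hJ
  have hone := oneS_of_run (C := s) hJ0 (runG_all hJ0 hW u)
  set A := 2 * s + 2 * W * u * 2 ^ (u + 1) with hA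
  set δ : ℝ := 2 ^ u * (Real.log 2 / (2 * J)) with hδ
  have hδ0 : 0 ≤ δ := by
    have := Real.log_nonneg (show (1:ℝ) ≤ 2 by norm_num)
    positivity
  have main : ∀ (m x y : ℕ) (T F : Finset L), Disjoint T F → x < y → y ≤ τ → M x ⊆ T →
      (∃ D ∈ M y, D ∈ F) → ¬ Cap M τ (x + 1) (y - 1) (m * δ) → Win M τ c (m * A) T F := by
    intro m
    induction m with
    | zero =>
      intro x y T F hTF hxy hyτ hx hy hcap
      have : y = x + 1 := by
        by_contra hne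
        apply hcap
        simp only [Nat.cast_zero, zero_mul]
        exact cap_single (by omega) (by omega)
      subst this
      obtain ⟨D, hD, hDF⟩ := hy
      exact Win.leaf x (by omega) hx D hD hDF
    | succ m ih =>
      intro x y T F hTF hxy hyτ hx hy hcap
      have := hone (fun _ => True) ∅ 0 (m * δ) x y (m * A) T F (by simpa using hJ)
        (fun z hz _ => by simpa using hs z hz)
        (by
          intro w hw he
          simp)
        trivial (by simpa using hx) hxy hyτ hy hTF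
        (by
          have e : ((m : ℝ) * δ + 2 ^ u * (Real.log 2 / (2 * J))) = ((m + 1 : ℕ) : ℝ) * δ := by
            rw [hδ]; push_cast; ring
          rw [e]; exact hcap)
        (by
          intro z t T' F' h1 h2 h3 h4 h5 hT hF hd hM hdead
          obtain ⟨D, hD, hDF⟩ := hdead
          have : z = t := by
            by_contra hne
            exact h5 t (by omega) le_rfl trivial
          subst this
          exact Win.leaf z (by omega) (by simpa using hM) D hD hDF)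
        (by
          intro x' y' T' F' h1 h2 h3 h4 hT hF hd hM hdead hcap'
          exact ih x' y' T' F' hd h2 (by omega) (by simpa using hM) hdead hcap')
      refine this.mono (le_of_eq ?_)
      rw [hA]; ring
  refine main m 0 τ T F hTF hτ le_rfl h0 h1 ?_
  intro h
  have := cap_upper ℓ hZ hH h
  linarith

end Pool.Agent.H705.SD
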