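import Pool.Agent.H705.SD.Core

set_option autoImplicit false

/-!
Rank bound by entropy of convex combinations of the configurations.
-/

namespace Pool.Agent.H705.SD

open Finset

variable {L : Type*} [DecidableEq L]

namespace RankA

/-- convex combination of the indicator functions of the configurations -/
noncomputable def F (M : ℕ → Finset L) (a b : ℕ) (w : ℕ → ℝ) (D : L) : ℝ :=
  ∑ t ∈ Icc a b, w t * (if D ∈ M t then 1 else 0)

lemma F_nonneg {M : ℕ → Finset L} {a b : ℕ} {w : ℕ → ℝ} (hw : ∀ t, 0 ≤ w t) (D : L) :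
    0 ≤ F M a b w D := by
  unfold F
  refine sum_nonneg fun t _ => mul_nonneg (hw t) ?_
  split_ifs <;> norm_num

lemma F_le {M : ℕ → Finset L} {a b : ℕ} {w : ℕ → ℝ} (hw : ∀ t, 0 ≤ w t) (D : L) :
    F M a b w D ≤ ∑ t ∈ Icc a b, w t := by
  unfold F
  refine sum_le_sum fun t _ => ?_
  apply mul_le_of_le_one_right (hw t)
  split_ifs <;> norm_num

/-- linear functionals of `F` -/
lemma F_sum {M : ℕ → Finset L} {a b : ℕ} (w : ℕ → ℝ) (S : Finset L) (g : L → ℝ) :
    ∑ D ∈ S, F M a b w D * g D = ∑ t ∈ Icc a b, w t * ∑ D ∈ S.filter (fun D => D ∈ M t), g D := by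
  unfold F
  simp_rw [sum_mul]
  rw [sum_comm]
  refine sum_congr rfl fun t _ => ?_
  rw [mul_sum, sum_filter]
  refine sum_congr rfl fun D _ => ?_
  split_ifs <;> ring

lemma negMulLog_half (y : ℝ) :
    Real.negMulLog (y / 2) = Real.negMulLog y / 2 + y / 2 * Real.log 2 := by
  have h := Real.negMulLog_mul y (1 / 2)
  have h2 : Real.negMulLog (1 / 2) = 1 / 2 * Real.log 2 := by
    rw [Real.negMulLog, one_div, Real.log_inv]; ring
  rw [h2] at h
  rw [show y / 2 = y * (1 / 2) by ring, h]
  ring

lemma negMulLog_mid {x y : ℝ} (hx : 0 ≤ x) (hy : 0 ≤ y) :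
    (Real.negMulLog x + Real.negMulLog y) / 2 ≤ Real.negMulLog ((x + y) / 2) := by
  have h := Real.concaveOn_negMulLog.2 (show x ∈ Set.Ici (0:ℝ) from hx)
    (show y ∈ Set.Ici (0:ℝ) from hy) (show (0:ℝ) ≤ 1 / 2 by norm_num)
    (show (0:ℝ) ≤ 1 / 2 by norm_num) (by norm_num)
  simp only [smul_eq_mul] at h
  rw [show (x + y) / 2 = 1 / 2 * x + 1 / 2 * y by ring]
  linarith

lemma negMulLog_up {x : ℝ} (hx : 0 ≤ x) (l : ℝ) :
    Real.negMulLog x ≤ x * l + Real.exp (-l) := by
  rcases hx.eq_or_lt with rfl | hx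
  · simp [Real.exp_nonneg]
  · have h1 : Real.log (Real.exp (-l) / x) ≤ Real.exp (-l) / x - 1 :=
      Real.log_le_sub_one_of_pos (by positivity)
    rw [Real.log_div (Real.exp_pos _).ne' hx.ne', Real.log_exp] at h1
    have h2 := mul_le_mul_of_nonneg_left h1 hx.le
    have h3 : x * (Real.exp (-l) / x - 1) = Real.exp (-l) - x := by field_simp
    rw [h3] at h2
    rw [Real.negMulLog]
    nlinarith

lemma main {M : ℕ → Finset L} {k a b : ℕ} : ∀ (d a' b' : ℕ), a ≤ a' → b' ≤ b →
    Rk M k d a' b' → ∃ w : ℕ → ℝ, (∀ t, 0 ≤ w t) ∧ (∀ t, w t ≠ 0 → a' ≤ t ∧ t ≤ b') ∧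
      ∑ t ∈ Icc a b, w t = 1 ∧ (d : ℝ) * (k + 1) * (Real.log 2 / 2) ≤
        ∑ D ∈ Lab M a b, Real.negMulLog (F M a b w D) := by
  intro d
  induction d with
  | zero =>
    intro a' b' ha hb h
    have hab : a' ≤ b' := h
    have hs : ∑ t ∈ Icc a b, (if t = a' then (1:ℝ) else 0) = 1 := by
      rw [sum_ite_eq' (Icc a b) a' (fun _ => (1:ℝ)), if_pos (mem_Icc.2 ⟨ha, hab.trans hb⟩)]
    have h0 : ∀ t, 0 ≤ (fun t => if t = a' then (1:ℝ) else 0) t := by
      intro t; simp only; split_ifs <;> norm_num
    refine ⟨fun t => if t = a' then 1 else 0, h0, ?_, hs, ?_⟩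
    · intro t ht
      have : t = a' := by
        by_contra hne
        exact ht (if_neg hne)
      subst this
      exact ⟨le_rfl, hab⟩
    · simp only [Nat.cast_zero, zero_mul]
      refine sum_nonneg fun D _ => ?_
      apply Real.negMulLog_nonneg (F_nonneg h0 D)
      exact (F_le h0 D).trans hs.le
  | succ d ih =>
    intro a' b' ha hb h
    obtain ⟨a1, b1, a2, b2, h1, h2, h3, h4, h5, h6⟩ := h
    have hle1 := Rk_le h4
    have hle2 := Rk_le h5
    obtain ⟨w1, p1, q1, s1, e1⟩ := ih a1 b1 (ha.trans h1) (by omega) h4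
    obtain ⟨w2, p2, q2, s2, e2⟩ := ih a2 b2 (by omega) (h3.trans hb) h5
    refine ⟨fun t => (w1 t + w2 t) / 2, fun t => ?_, fun t ht => ?_, ?_, ?_⟩
    · have := p1 t; have := p2 t; positivity
    · by_cases hw1 : w1 t = 0
      · have hw2 : w2 t ≠ 0 := by
          intro h0
          apply ht
          simp [hw1, h0]
        have := q2 t hw2
        omega
      · have := q1 t hw1
        omega
    · rw [← sum_div, sum_add_distrib, s1, s2]; norm_num
    · have hF : ∀ D, F M a b (fun t => (w1 t + w2 t) / 2) D =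
          (F M a b w1 D + F M a b w2 D) / 2 := by
        intro D
        unfold F
        rw [← sum_add_distrib, sum_div]
        refine sum_congr rfl fun t _ => ?_
        ring
      -- termwise bound
      have hterm : ∀ D ∈ Lab M a b, (Real.negMulLog (F M a b w1 D) +
          Real.negMulLog (F M a b w2 D)) / 2 +
          (if D ∈ Lab M a1 b1 then 0 else F M a b w2 D / 2 * Real.log 2) ≤
          Real.negMulLog (F M a b (fun t => (w1 t + w2 t) / 2) D) := by
        intro D _
        rw [hF]
        split_ifs with hD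
        · rw [add_zero]
          exact negMulLog_mid (F_nonneg p1 D) (F_nonneg p2 D)
        · have hz : F M a b w1 D = 0 := by
            unfold F
            refine sum_eq_zero fun t _ => ?_
            by_cases hw : w1 t = 0
            · rw [hw, zero_mul]
            · have := q1 t hw
              rw [if_neg, mul_zero]
              intro hDt
              exact hD (mem_Lab.2 ⟨t, this.1, this.2, hDt⟩)
          rw [hz, zero_add, negMulLog_half, Real.negMulLog_zero, zero_add]
      have hsum := sum_le_sum hterm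
      rw [sum_add_distrib, ← sum_div, sum_add_distrib] at hsum
      have hnew : ((k : ℝ) + 1) * (Real.log 2 / 2) ≤
          ∑ D ∈ Lab M a b, (if D ∈ Lab M a1 b1 then 0 else F M a b w2 D / 2 * Real.log 2) := by
        have g1 : ∑ D ∈ Lab M a b, (if D ∈ Lab M a1 b1 then 0 else
            F M a b w2 D / 2 * Real.log 2) =
            ∑ D ∈ (Lab M a b).filter (fun D => D ∉ Lab M a1 b1),
              F M a b w2 D * (Real.log 2 / 2) := by
          rw [sum_filter]
          refine sum_congr rfl fun D _ => ?_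
          split_ifs <;> ring
        rw [g1, F_sum]
        have g2 : ∀ t ∈ Icc a b, w2 t * (((k : ℝ) + 1) * (Real.log 2 / 2)) ≤
            w2 t * ∑ D ∈ ((Lab M a b).filter (fun D => D ∉ Lab M a1 b1)).filter
              (fun D => D ∈ M t), Real.log 2 / 2 := by
          intro t ht
          rw [mem_Icc] at ht
          by_cases hw : w2 t = 0
          · rw [hw]; simp
          · apply mul_le_mul_of_nonneg_left _ (p2 t)
            have hq := q2 t hw
            have hk := h6 t hq.1 hq.2
            have hsub : M t \ Lab M a1 b1 ⊆ ((Lab M a b).filter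
                (fun D => D ∉ Lab M a1 b1)).filter (fun D => D ∈ M t) := by
              intro D hD
              rw [mem_sdiff] at hD
              rw [mem_filter, mem_filter]
              exact ⟨⟨mem_Lab.2 ⟨t, ht.1, ht.2, hD.1⟩, hD.2⟩, hD.1⟩
            have hc : k + 1 ≤ (((Lab M a b).filter
                (fun D => D ∉ Lab M a1 b1)).filter (fun D => D ∈ M t)).card :=
              hk.trans_le (card_le_card hsub)
            rw [sum_const, nsmul_eq_mul]
            apply mul_le_mul_of_nonneg_right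
            · exact_mod_cast hc
            · have := Real.log_nonneg (show (1:ℝ) ≤ 2 by norm_num)
              linarith
        refine le_trans ?_ (sum_le_sum g2)
        rw [← sum_mul, s2, one_mul]
      push_cast
      have e3 : ((d : ℝ) + 1) * (k + 1) * (Real.log 2 / 2) =
          (d : ℝ) * (k + 1) * (Real.log 2 / 2) + ((k : ℝ) + 1) * (Real.log 2 / 2) := by ring
      rw [e3]
      linarith

end RankA

open RankA in
theorem rank_bound {M : ℕ → Finset L} {k d a b : ℕ} (ℓ : L → ℝ) {H Z : ℝ}
    (hZ : ∀ U : Finset L, ∑ D ∈ U, Real.exp (-ℓ D) ≤ Z)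
    (hH : ∀ t, a ≤ t → t ≤ b → ∑ D ∈ M t, ℓ D ≤ H)
    (h : Rk M k d a b) : (d : ℝ) * (k + 1) * (Real.log 2 / 2) ≤ H + Z := by
  obtain ⟨w, p, -, s, e⟩ := RankA.main d a b le_rfl le_rfl h
  refine e.trans ?_
  have h1 : ∑ D ∈ Lab M a b, Real.negMulLog (F M a b w D) ≤
      ∑ D ∈ Lab M a b, (F M a b w D * ℓ D + Real.exp (-ℓ D)) :=
    sum_le_sum fun D _ => negMulLog_up (F_nonneg p D) (ℓ D)
  refine h1.trans ?_
  rw [sum_add_distrib]
  refine add_le_add ?_ (hZ _)
  rw [F_sum]
  calc ∑ t ∈ Icc a b, w t * ∑ D ∈ (Lab M a b).filter (fun D => D ∈ M t), ℓ D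
      ≤ ∑ t ∈ Icc a b, w t * H := by
        refine sum_le_sum fun t ht => mul_le_mul_of_nonneg_left ?_ (p t)
        rw [mem_Icc] at ht
        have e2 : (Lab M a b).filter (fun D => D ∈ M t) = M t := by
          ext D
          rw [mem_filter]
          constructor
          · exact fun h => h.2
          · exact fun h => ⟨mem_Lab.2 ⟨t, ht.1, ht.2, h⟩, h⟩
        rw [e2]
        exact hH t ht.1 ht.2
    _ = H := by rw [← sum_mul, s, one_mul]

end Pool.Agent.H705.SD
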