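import Mathlib

set_option autoImplicit false

/-! Task C (helper329): the prior on clauses. -/

namespace Pool.Agent.H705.SD

open Finset

theorem clause_prior (n : ℕ) (hn : 1 ≤ n) (U : Finset (Finset (Fin n × Bool))) :
    ∑ D ∈ U, Real.exp (-((D.card : ℝ) * Real.log (2 * n))) ≤ 3 := by
  have hn0 : (0 : ℝ) < 2 * n := by
    have : (1 : ℝ) ≤ n := by exact_mod_cast hn
    linarith
  have h1 : ∀ D : Finset (Fin n × Bool), Real.exp (-((D.card : ℝ) * Real.log (2 * n))) =
      ∏ _l ∈ D, (1 / (2 * (n : ℝ))) := by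
    intro D
    rw [Finset.prod_const, Real.exp_neg, Real.exp_nat_mul, Real.exp_log hn0, one_div, inv_pow]
  have h2 : ∑ D ∈ U, Real.exp (-((D.card : ℝ) * Real.log (2 * n))) ≤
      ∑ D : Finset (Fin n × Bool), ∏ _l ∈ D, (1 / (2 * (n : ℝ))) := by
    calc ∑ D ∈ U, Real.exp (-((D.card : ℝ) * Real.log (2 * n)))
        ≤ ∑ D : Finset (Fin n × Bool), Real.exp (-((D.card : ℝ) * Real.log (2 * n))) :=
          Finset.sum_le_sum_of_subset_of_nonneg (Finset.subset_univ _)
            fun _ _ _ => (Real.exp_pos _).le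
      _ = _ := Finset.sum_congr rfl fun D _ => h1 D
  have h3 : ∑ D : Finset (Fin n × Bool), ∏ _l ∈ D, (1 / (2 * (n : ℝ))) =
      (1 + 1 / (2 * (n : ℝ))) ^ (2 * n) := by
    have h4 := Finset.prod_one_add (s := (Finset.univ : Finset (Fin n × Bool)))
      (f := fun _ => 1 / (2 * (n : ℝ)))
    rw [Finset.powerset_univ] at h4
    rw [← h4, Finset.prod_const, Finset.card_univ, Fintype.card_prod, Fintype.card_fin,
      Fintype.card_bool, mul_comm n 2]
  have h5 : (1 + 1 / (2 * (n : ℝ))) ^ (2 * n) ≤ Real.exp 1 := by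
    have h6 : 1 + 1 / (2 * (n : ℝ)) ≤ Real.exp (1 / (2 * (n : ℝ))) := by
      have := Real.add_one_le_exp (1 / (2 * (n : ℝ)))
      linarith
    calc (1 + 1 / (2 * (n : ℝ))) ^ (2 * n) ≤ Real.exp (1 / (2 * (n : ℝ))) ^ (2 * n) :=
          pow_le_pow_left₀ (by positivity) h6 _
      _ = Real.exp 1 := by
          rw [← Real.exp_nat_mul]
          congr 1
          push_cast
          field_simp
  have h7 := Real.exp_one_lt_d9
  rw [h3] at h2
  linarith

end Pool.Agent.H705.SD
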