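import Pool.Agent.H705.SD.Nest
import Pool.Agent.H705.SD.RankC
import Pool.Agent.H561R2.VSpace

set_option autoImplicit false

namespace Pool.Agent.H705.SD

open Finset Pool.Agent.H561R2.VS

variable {n : ℕ}

/-- From the search game to depth. -/
theorem der_of_win {Fm : Finset (Cl n)} {M : ℕ → Finset (Cl n)} {τ : ℕ}
    (hstep : ∀ t, t < τ → ∀ α : Fin n → Bool, Alive α (M t) → ∀ D ∈ M (t + 1), ¬ Sat α D → D ∈ Fm)
    {k : ℕ} {T F : Finset (Cl n)} (h : Win M τ (fun D : Cl n => D.card) k T F) :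
    ∀ (Q : Finset (Fin n)) (α : Fin n → Bool),
      (∀ C ∈ T, (∀ l ∈ C, l.1 ∈ Q) ∧ Sat α C) → (∀ C ∈ F, (∀ l ∈ C, l.1 ∈ Q) ∧ ¬ Sat α C) →
      Der Fm k (fcl Q α) := by
  classical
  have hcongr : ∀ (Q : Finset (Fin n)) (α β : Fin n → Bool) (C : Cl n), (∀ i ∈ Q, β i = α i) →
      (∀ l ∈ C, l.1 ∈ Q) → (Sat β C ↔ Sat α C) := by
    intro Q α β C h1 h2
    constructor
    · rintro ⟨l, hl, h3⟩
      exact ⟨l, hl, by rw [← h1 _ (h2 l hl)]; exact h3⟩
    · rintro ⟨l, hl, h3⟩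
      exact ⟨l, hl, by rw [h1 _ (h2 l hl)]; exact h3⟩
  induction h with
  | @leaf k T F t ht h1 D h2 h3 =>
    intro Q α hT hF
    have hD := hF D h3
    have := der_leaf (Q := Q) (hstep t ht α (fun C hC => (hT C (h1 hC)).2) D h2 hD.2) hD.2 hD.1
    exact this.mono (Nat.zero_le _)
  | @query k T F D h1 h2 ih1 ih2 =>
    intro Q α hT hF
    have hcard : (D.image Prod.fst).card ≤ D.card := Finset.card_image_le
    have key : Der Fm (k + (D.image Prod.fst).card) (fcl Q α) := by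
      apply der_queries
      intro β hβ
      have hDQ : ∀ l ∈ D, l.1 ∈ Q ∪ D.image Prod.fst := fun l hl =>
        Finset.mem_union_right _ (Finset.mem_image_of_mem _ hl)
      by_cases hs : Sat β D
      · apply ih1
        · intro C hC
          rcases Finset.mem_insert.1 hC with rfl | hC
          · exact ⟨hDQ, hs⟩
          · exact ⟨fun l hl => Finset.mem_union_left _ ((hT C hC).1 l hl),
              (hcongr Q α β C hβ (hT C hC).1).2 (hT C hC).2⟩
        · intro C hC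
          exact ⟨fun l hl => Finset.mem_union_left _ ((hF C hC).1 l hl),
              fun h => (hF C hC).2 ((hcongr Q α β C hβ (hF C hC).1).1 h)⟩
      · apply ih2
        · intro C hC
          exact ⟨fun l hl => Finset.mem_union_left _ ((hT C hC).1 l hl),
              (hcongr Q α β C hβ (hT C hC).1).2 (hT C hC).2⟩
        · intro C hC
          rcases Finset.mem_insert.1 hC with rfl | hC
          · exact ⟨hDQ, hs⟩
          · exact ⟨fun l hl => Finset.mem_union_left _ ((hF C hC).1 l hl),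
              fun h => (hF C hC).2 ((hcongr Q α β C hβ (hF C hC).1).1 h)⟩
    exact key.mono (by omega)

/-- the steps of the frozen formulation -/
def StepR (Fm : Finset (Cl n)) (A B : Finset (Cl n)) : Prop :=
  (∃ C ∈ Fm, B = insert C A) ∨
    (∃ C₁ ∈ A, ∃ C₂ ∈ A, ∃ v : Fin n, (v, true) ∈ C₁ ∧ (v, false) ∈ C₂ ∧
      B = insert (C₁.erase (v, true) ∪ C₂.erase (v, false)) A) ∨
    B ⊆ A

lemma stepR_dead {Fm : Finset (Cl n)} {A B : Finset (Cl n)} (h : StepR Fm A B)
    {α : Fin n → Bool} (h1 : Alive α A) {D : Cl n} (hD : D ∈ B) (h2 : ¬ Sat α D) : D ∈ Fm := by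
  rcases h with ⟨C, hC, rfl⟩ | ⟨C₁, h₁, C₂, h₂, x, hx1, hx2, rfl⟩ | hBA
  · rcases Finset.mem_insert.1 hD with rfl | hD
    · exact hC
    · exact absurd (h1 D hD) h2
  · exfalso
    rcases Finset.mem_insert.1 hD with rfl | hD
    · apply h2
      by_cases hx : α x = true
      · obtain ⟨l, hl, hl2⟩ := h1 C₂ h₂
        refine ⟨l, Finset.mem_union_right _ (Finset.mem_erase.2 ⟨?_, hl⟩), hl2⟩
        rintro rfl
        simp only at hl2
        rw [hx] at hl2
        exact absurd hl2 (by simp)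
      · obtain ⟨l, hl, hl2⟩ := h1 C₁ h₁
        refine ⟨l, Finset.mem_union_left _ (Finset.mem_erase.2 ⟨?_, hl⟩), hl2⟩
        rintro rfl
        simp only at hl2
        exact hx hl2
    · exact absurd (h1 D hD) h2
  · exact absurd (h1 D (hBA hD)) h2

/-- the parameters of the nested game: `u = ⌊log₂ (s / w)⌋` -/
theorem params {s w : ℕ} (hw1 : 1 ≤ w) (hws : w ≤ s) {X : ℝ} (hX : 0 ≤ X) :
    ∃ m : ℕ, X < m * (2 ^ (Nat.log 2 (s / w)) * (Real.log 2 / (2 * ((Nat.log 2 (s / w) : ℝ) + 2)))) ∧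
      ((m * (2 * s + 2 * w * Nat.log 2 (s / w) * 2 ^ (Nat.log 2 (s / w) + 1)) : ℕ) : ℝ) ≤
        20 * ((Nat.log 2 (s / w) : ℝ) + 1) ^ 2 * w * (X / Real.log 2) +
          2 * s * (2 * (Nat.log 2 (s / w) : ℝ) + 1) := by
  set u := Nat.log 2 (s / w) with hu
  have hdiv : 0 < s / w := Nat.div_pos hws hw1
  have h1 : w * 2 ^ u ≤ s := by
    calc w * 2 ^ u ≤ w * (s / w) := Nat.mul_le_mul_left _ (Nat.pow_log_le_self 2 hdiv.ne')
      _ ≤ s := Nat.mul_div_le s w
  have h2 : s < 2 * (w * 2 ^ u) := by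
    have h3 : s / w < 2 ^ (u + 1) := Nat.lt_pow_succ_log_self (by norm_num) _
    rw [Nat.div_lt_iff_lt_mul hw1] at h3
    calc s < 2 ^ (u + 1) * w := h3
      _ = 2 * (w * 2 ^ u) := by rw [pow_succ]; ring
  have hl2 : 0 < Real.log 2 := Real.log_pos (by norm_num)
  set δ : ℝ := 2 ^ u * (Real.log 2 / (2 * ((u : ℝ) + 2))) with hδ
  have hδ0 : 0 < δ := by positivity
  refine ⟨⌊X / δ⌋₊ + 1, ?_, ?_⟩
  · have := Nat.lt_floor_add_one (X / δ)
    rw [div_lt_iff₀ hδ0] at this
    push_cast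
    exact this
  · have hfl : (⌊X / δ⌋₊ : ℝ) ≤ X / δ := Nat.floor_le (by positivity)
    have hA : ((2 * s + 2 * w * u * 2 ^ (u + 1) : ℕ) : ℝ) ≤ 2 * s * (2 * u + 1) := by
      have h3 : 2 * s + 2 * w * u * 2 ^ (u + 1) ≤ 2 * s * (2 * u + 1) := by
        have h4 : 2 * w * u * 2 ^ (u + 1) = 4 * u * (w * 2 ^ u) := by rw [pow_succ]; ring
        rw [h4]
        have h5 : 4 * u * (w * 2 ^ u) ≤ 4 * u * s := Nat.mul_le_mul_left _ h1
        nlinarith
      exact_mod_cast h3
    have hs0 : (0 : ℝ) < s := by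
      have : 0 < s := lt_of_lt_of_le hw1 hws
      exact_mod_cast this
    have hw0 : (0 : ℝ) < w := by exact_mod_cast hw1
    have hu0 : (0 : ℝ) ≤ u := Nat.cast_nonneg u
    have h6 : X / δ * s ≤ 4 * (u + 2) * w * (X / Real.log 2) := by
      have h7 : X / δ = 2 * (u + 2) * (X / Real.log 2) / 2 ^ u := by
        rw [hδ]; field_simp
      rw [h7, div_mul_eq_mul_div, div_le_iff₀ (by positivity)]
      have h8 : (s : ℝ) ≤ 2 * (w * 2 ^ u) := by exact_mod_cast h2.le
      have h9 : 0 ≤ 2 * (u + 2) * (X / Real.log 2) := by positivity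
      calc 2 * (u + 2) * (X / Real.log 2) * s ≤ 2 * (u + 2) * (X / Real.log 2) * (2 * (w * 2 ^ u)) :=
            mul_le_mul_of_nonneg_left h8 h9
        _ = 4 * (u + 2) * w * (X / Real.log 2) * 2 ^ u := by ring
    have hY : 0 ≤ w * (X / Real.log 2) := by positivity
    calc (((⌊X / δ⌋₊ + 1) * (2 * s + 2 * w * u * 2 ^ (u + 1)) : ℕ) : ℝ)
        = ((⌊X / δ⌋₊ : ℝ) + 1) * ((2 * s + 2 * w * u * 2 ^ (u + 1) : ℕ) : ℝ) := by push_cast; ring
      _ ≤ (X / δ + 1) * (2 * s * (2 * u + 1)) := by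
          apply mul_le_mul (by linarith) hA (Nat.cast_nonneg _) (by positivity)
      _ = 2 * (2 * u + 1) * (X / δ * s) + 2 * s * (2 * u + 1) := by ring
      _ ≤ 2 * (2 * u + 1) * (4 * (u + 2) * w * (X / Real.log 2)) + 2 * s * (2 * u + 1) := by
          have := mul_le_mul_of_nonneg_left h6 (show 0 ≤ 2 * (2 * (u : ℝ) + 1) by positivity)
          linarith
      _ ≤ 20 * ((u : ℝ) + 1) ^ 2 * w * (X / Real.log 2) + 2 * s * (2 * u + 1) := by
          have h10 : 2 * (2 * (u : ℝ) + 1) * (4 * (u + 2)) ≤ 20 * ((u : ℝ) + 1) ^ 2 := by nlinarith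
          have := mul_le_mul_of_nonneg_right h10 hY
          nlinarith

/-- if the empty clause is in a space refutation of `Fm` of total space `s` and width `w` then it is
derivable in small depth -/
theorem lev_nest (hn : 1 ≤ n) {Fm : Finset (Cl n)} {M : ℕ → Finset (Cl n)} {τ s w : ℕ}
    (hw1 : 1 ≤ w) (hws : w ≤ s) (h0 : M 0 = ∅) (h1 : (∅ : Cl n) ∈ M τ)
    (hstep : ∀ t, t < τ → StepR Fm (M t) (M (t + 1)))
    (hs : ∀ t, t ≤ τ → ∑ C ∈ M t, C.card ≤ s) (hw : ∀ t, t ≤ τ → ∀ C ∈ M t, C.card ≤ w) :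
    ∃ N : ℕ, (∅ : Cl n) ∈ lev Fm N ∧
      (N : ℝ) ≤ 20 * ((Nat.log 2 (s / w) : ℝ) + 1) ^ 2 * w *
        ((s * Real.log (2 * n) + 3) / Real.log 2) + 2 * s * (2 * (Nat.log 2 (s / w) : ℝ) + 1) := by
  classical
  have hτ' : 0 < τ := by
    rcases Nat.eq_zero_or_pos τ with h | h
    · rw [h, h0] at h1
      simp at h1
    · exact h
  have hn' : (1 : ℝ) ≤ n := by exact_mod_cast hn
  have hlog : 0 ≤ Real.log (2 * n) := Real.log_nonneg (by linarith)
  obtain ⟨m, hm, hN⟩ := params hw1 hws (X := s * Real.log (2 * n) + 3) (by positivity)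
  refine ⟨_, ?_, hN⟩
  have hwin : Win M τ (fun D : Cl n => D.card) (m * (2 * s + 2 * w * Nat.log 2 (s / w) *
      2 ^ (Nat.log 2 (s / w) + 1))) ∅ {∅} := by
    refine nest_win (J := (Nat.log 2 (s / w) : ℝ) + 2) (by push_cast; linarith) hs hw
      (fun D : Cl n => (D.card : ℝ) * Real.log (2 * n))
      (H := s * Real.log (2 * n)) (Z := 3) (fun U => clause_prior n hn U) ?_ hm (by simp) hτ' ?_ ?_
    · intro t ht
      rw [← Finset.sum_mul]
      apply mul_le_mul_of_nonneg_right _ hlog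
      exact_mod_cast hs t ht
    · rw [h0]
    · exact ⟨∅, h1, by simp⟩
  have hder := der_of_win (Fm := Fm) (fun t ht α ha D hD h => stepR_dead (hstep t ht) ha hD h) hwin
    ∅ (fun _ => false) (by simp) (by
      intro C hC
      rw [Finset.mem_singleton] at hC
      subst hC
      refine ⟨by simp, ?_⟩
      rintro ⟨l, hl, _⟩
      simp at hl)
  obtain ⟨C', hC', hsub⟩ := hder
  have : C' = ∅ := by
    have h : fcl (∅ : Finset (Fin n)) (fun _ => false) = ∅ := by simp [fcl]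
    rw [h] at hsub
    exact Finset.subset_empty.1 hsub
  rwa [this] at hC'

/-- if `Fm` has a space refutation then the empty clause is derivable in depth `n` -/
theorem lev_n {Fm : Finset (Cl n)} {M : ℕ → Finset (Cl n)} {τ : ℕ}
    (h0 : M 0 = ∅) (h1 : (∅ : Cl n) ∈ M τ)
    (hstep : ∀ t, t < τ → StepR Fm (M t) (M (t + 1))) : (∅ : Cl n) ∈ lev Fm n := by
  classical
  have hfal : ∀ β : Fin n → Bool, ∃ C ∈ Fm, ¬ Sat β C := by
    intro β
    by_contra hcon
    push Not at hcon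
    have : ∀ t, t ≤ τ → Alive β (M t) := by
      intro t
      induction t with
      | zero => intro _ C hC; rw [h0] at hC; simp at hC
      | succ t ih =>
        intro ht D hD
        by_contra hD2
        exact hD2 (hcon D (stepR_dead (hstep t (by omega)) (ih (by omega)) hD hD2))
    obtain ⟨l, hl, _⟩ := this τ le_rfl ∅ h1
    simp at hl
  have hder : Der Fm (0 + (Finset.univ : Finset (Fin n)).card) (fcl ∅ (fun _ => false)) := by
    apply der_queries
    intro β _
    obtain ⟨C, hC, hs⟩ := hfal β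
    exact der_leaf hC hs (fun l _ => by simp)
  obtain ⟨C', hC', hsub⟩ := hder
  have : C' = ∅ := by
    have h : fcl (∅ : Finset (Fin n)) (fun _ => false) = ∅ := by simp [fcl]
    rw [h] at hsub
    exact Finset.subset_empty.1 hsub
  rw [this] at hC'
  simpa using hC'

end Pool.Agent.H705.SD
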